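import Pool.Agent.U192.TE.Ten
import Pool.Agent.U192.PE.Kod
import Pool.Agent.R882.TRat

/-!
Tensor differentials on the varieties which correspond to a positive variety.
-/

set_option autoImplicit false
set_option linter.overlappingInstances false
set_option linter.unusedSectionVars false

open FF Pool.Agent.W602.GT Pool.Agent.W603.LV Pool.Agent.W619.PQ Pool.Agent.Y172

namespace Pool.Agent.U192.TE

open Pool.Agent.U192.NM (dg Lv pol exists_basis_pol trdeg_adj der_norm)
open Pool.Agent.U192.PB (up)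
open Pool.Agent.U192.PE (adjoin_up mem_Lv pluri_comb)
open Pool.Agent.U192.TD (pol_img norm_fun tens_bound coeff_mem)

section

variable {M : Type} [Field M] [Algebra ℂ M]

/-- general constant combinations of a frame -/
theorem exists_comb {n d : ℕ} {x : Fin d → M} (hx : AlgebraicIndependent ℂ x)
    {y : Fin n → M} (hy : IsTranscendenceBasis ℂ y)
    {B : Fin n → Derivation ℂ M M} (hB : ∀ i j, B i (y j) = if i = j then 1 else 0) :
    ∃ C : Fin d × Fin n → ℂ,
      (Matrix.of fun i l => ∑ j, algebraMap ℂ M (C (i, j)) * B j (x l)).det ≠ 0 := by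
  classical
  by_contra hcon
  push Not at hcon
  obtain ⟨p, hp⟩ : ∃ p : MvPolynomial (Fin d × Fin n) M, p =
      (Matrix.of fun i l => ∑ j, MvPolynomial.X (i, j) *
        MvPolynomial.C (B j (x l))).det := ⟨_, rfl⟩
  have hev : ∀ g : Fin d × Fin n → M, MvPolynomial.eval g p =
      (Matrix.of fun i l => ∑ j, g (i, j) * B j (x l)).det := by
    intro g
    rw [hp, RingHom.map_det]
    congr 1
    ext i l
    rw [RingHom.mapMatrix_apply, Matrix.map_apply, Matrix.of_apply, Matrix.of_apply, map_sum]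
    refine Finset.sum_congr rfl fun j _ => ?_
    rw [map_mul, MvPolynomial.eval_X, MvPolynomial.eval_C]
  have h0 : p = 0 := by
    ext s
    have h1 := coeff_mem (⊥ : Submodule ℂ M) p (fun c => by
      rw [Submodule.mem_bot, hev]
      exact hcon c) s
    rw [Submodule.mem_bot] at h1
    rw [h1, MvPolynomial.coeff_zero]
  obtain ⟨Dy, hDy⟩ := Pool.Agent.TH466.QT.exists_dual_of_indep hx
  have h3 := hev fun ij : Fin d × Fin n => Dy ij.1 (y ij.2)
  have h4 : (Matrix.of fun i l => ∑ j, Dy i (y j) * B j (x l) : Matrix (Fin d) (Fin d) M) = 1 := by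
    ext i l
    rw [Matrix.of_apply, Matrix.one_apply]
    have h5 := Pool.Agent.W308.PG.YLOC.expandK (k := ℂ) (K := M) y B hy hB (Dy i)
    have h6 : Dy i (x l) = ∑ j, Dy i (y j) * B j (x l) := by
      conv_lhs => rw [h5]
      rw [Pool.Agent.W308.PG.YLOC.der_sum_apply]
      rfl
    have h7 := hDy i l
    rw [← h6, h7]
    by_cases hil : i = l
    · rw [if_pos hil, if_pos hil.symm]
    · rw [if_neg hil, if_neg (Ne.symm hil)]
  rw [h4, Matrix.det_one, h0, map_zero] at h3
  exact one_ne_zero h3.symm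

end

section

variable {K L : Type} [Field K] [Field L] [Algebra ℂ K] [Algebra ℂ L]
  [Algebra K L] [IsScalarTower ℂ K L] [FiniteDimensional K L]
  [Algebra.EssFiniteType ℂ K] [Algebra.EssFiniteType ℂ L]

/-- **Tensor differentials on the varieties which correspond to a positive variety.** -/
theorem corr_main (U : IntermediateField ℂ L) {κ : ℕ}
    (X : Fin κ → Finset U) (hX : IntermediateField.adjoin ℂ (⋃ i, (X i : Set U)) = ⊤)
    {d n m a : ℕ} (hU : Algebra.trdeg ℂ U = d) (hn : Algebra.trdeg ℂ K = n)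
    {θ : Fin (a + 1) → (Fin d → Derivation ℂ U U) → U} (hθ : ∀ j, IsPluri m (θ j))
    (hpos : ∀ j, ∀ v : Place ℂ U, Divisorial d v → ∀ G : Fin d → Derivation ℂ U U,
      (∀ i, DerReg v (G i)) → θ j G = 0 ∨
      ∑ i, 2 * (m : ℤ) * ((dg K (up U X) i : ℤ) - 1) * pol (X i) v ≤ v.ord (θ j G))
    {G0 : Fin d → Derivation ℂ U U} (hG0 : θ 0 G0 ≠ 0)
    (hind : AlgebraicIndependent ℂ fun j : Fin a => θ j.succ G0 / θ 0 G0) :
    ∃ (T : MultilinearMap K
      (fun _ : Fin (d * m * Module.finrank K (Lv K (up U X) κ)) => Derivation ℂ K K) K)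
      (g : Fin a → K), T ≠ 0 ∧ AlgebraicIndependent ℂ g ∧
      (∀ P : Place ℂ K, Divisorial n P →
        ∀ D : Fin (d * m * Module.finrank K (Lv K (up U X) κ)) → Derivation ℂ K K,
        (∀ i, DerReg P (D i)) → P.Reg (T D)) ∧
      ∀ j, ∀ P : Place ℂ K, Divisorial n P →
        ∀ D : Fin (d * m * Module.finrank K (Lv K (up U X) κ)) → Derivation ℂ K K,
        (∀ i, DerReg P (D i)) → P.Reg ((g j • T) D) := by
  classical
  have hcK : CharZero K := charZero_of_injective_algebraMap (algebraMap ℂ K).injective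
  have hUe : Algebra.EssFiniteType ℂ U := Pool.Agent.N999.SX.ess_any U
  -- the Galois closure
  let Ω := IntermediateField.normalClosure K L (AlgebraicClosure L)
  have hfin : FiniteDimensional K Ω := inferInstance
  have hnorm : Normal K Ω := inferInstance
  have hgal : IsGalois K Ω := IsGalois.mk
  let ik : Algebra ℂ Ω := ((algebraMap L Ω).comp (algebraMap ℂ L)).toAlgebra
  have ht2 : IsScalarTower ℂ L Ω := IsScalarTower.of_algebraMap_eq fun _ => rfl
  have ht3 : IsScalarTower ℂ K Ω := IsScalarTower.of_algebraMap_eq fun c => by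
    change algebraMap L Ω (algebraMap ℂ L c) = _
    rw [IsScalarTower.algebraMap_apply ℂ K L, ← IsScalarTower.algebraMap_apply K L Ω]
  have hXL := adjoin_up (U := U) hX
  have hXE : ∀ i, ∀ z ∈ up U X i, z ∈ U := by
    intro i z hz
    unfold up at hz
    rw [Finset.mem_map] at hz
    obtain ⟨u, -, rfl⟩ := hz
    exact u.2
  have hE : ∀ z ∈ U, z ∈ Lv K (up U X) κ := mem_Lv hXL
  obtain ⟨q, f, hf⟩ := exists_basis_pol K hXE hE
  let M := Lv K (up U X) κ
  let iUM : Algebra U M := ({ toFun := fun u => ⟨(u : L), hE u u.2⟩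
                              map_one' := rfl
                              map_mul' := fun _ _ => rfl
                              map_zero' := rfl
                              map_add' := fun _ _ => rfl } : U →+* M).toAlgebra
  have t1 : IsScalarTower ℂ U M := IsScalarTower.of_algebraMap_eq fun _ => rfl
  have t2 : IsScalarTower ℂ M Ω := IsScalarTower.of_algebraMap_eq fun c => by
    change algebraMap ℂ Ω c = algebraMap L Ω (algebraMap ℂ L c)
    rw [← IsScalarTower.algebraMap_apply ℂ L Ω]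
  have t3 : IsScalarTower ℂ M L := IsScalarTower.of_algebraMap_eq fun _ => rfl
  have hMe : Algebra.EssFiniteType ℂ M := by
    have h1 : Algebra.EssFiniteType K M := inferInstance
    exact Algebra.EssFiniteType.comp ℂ K M
  obtain ⟨XM, hXM⟩ : ∃ XM : Fin κ → Finset M, ∀ i z, z ∈ XM i ↔
      ∃ u ∈ X i, algebraMap U M u = z :=
    ⟨fun i => (X i).image (algebraMap U M), fun i z => by rw [Finset.mem_image]⟩
  have hXL' : ∀ i z, z ∈ up U X i ↔ ∃ u ∈ XM i, algebraMap M L u = z := by
    intro i z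
    unfold up
    rw [Finset.mem_map]
    constructor
    · rintro ⟨u, hu, rfl⟩
      exact ⟨algebraMap U M u, (hXM i _).2 ⟨u, hu, rfl⟩, rfl⟩
    · rintro ⟨w, hw, rfl⟩
      obtain ⟨u, hu, rfl⟩ := (hXM i _).1 hw
      exact ⟨u, hu, rfl⟩
  have hnM : Algebra.trdeg ℂ M = n := Pool.Agent.Y172.trdeg_up (K := K) hn
  have hfMΩ : FiniteDimensional M Ω := FiniteDimensional.right K M Ω
  obtain ⟨x, Ex, hx, hEx⟩ := exists_crd hU
  obtain ⟨ε, hε0, hε⟩ := norm_fun (k := ℂ) Ω f
  obtain ⟨T1, τ, c1, hc1, hT, hT1⟩ :=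
    exists_tensor (m := m) (M := M) hn fun l => algebraMap U M (x l)
  -- the combinations of the forms
  let ι : Type := {p : Fin (a + 1) → ℂ // ∑ l, p l • θ l Ex ≠ 0}
  obtain ⟨ϑ, hϑ⟩ : ∃ ϑ : ι → (Fin d → Derivation ℂ U U) → U, ∀ j, ϑ j =
      fun G => ∑ l, j.1 l • θ l G := ⟨_, fun _ => rfl⟩
  have hϑp : ∀ j, IsPluri m (ϑ j) := by
    intro j
    rw [hϑ]
    exact pluri_comb hθ _
  have hϑpos : ∀ j, ∀ v : Place ℂ U, Divisorial d v → ∀ G : Fin d → Derivation ℂ U U,
      (∀ i, DerReg v (G i)) → ϑ j G = 0 ∨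
      2 * m * (∑ i, ((dg K (up U X) i : ℤ) - 1) * pol (X i) v) ≤ v.ord (ϑ j G) := by
    intro j v hv G hG
    rw [hϑ]
    change Ge v _ (∑ l, j.1 l • θ l G)
    refine Ge.sum _ _ fun l _ => ?_
    rw [Algebra.smul_def]
    have h1 : Ge v (2 * m * (∑ i, ((dg K (up U X) i : ℤ) - 1) * pol (X i) v)) (θ l G) := by
      rcases hpos l v hv G hG with h | h
      · exact Or.inl h
      · right
        refine le_trans (le_of_eq ?_) h
        rw [Finset.mul_sum]
        refine Finset.sum_congr rfl fun i _ => ?_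
        ring
    have h2 := (Ge.const (P := v) (j.1 l)).mul h1
    rwa [zero_add] at h2
  have hϑ0 : ∀ j, ϑ j Ex ≠ 0 := by
    intro j
    rw [hϑ]
    exact j.2
  -- the regularity
  have hreg : ∀ j : ι, ∀ P : Place ℂ K, Divisorial n P → ∀ (y : Fin n → K)
      (E : Fin n → Derivation ℂ K K) (i0 : Fin n), Loc P y E i0 → ∀ E' : Fin n → Derivation ℂ M M,
      (∀ i z, E' i (algebraMap K M z) = algebraMap K M (E i z)) → ∀ C : Fin d → Fin n → ℂ,
      Ge P 0 (Algebra.norm K ((Matrix.of fun i l => ∑ j, algebraMap ℂ M (C i j) *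
        E' j (algebraMap U M (x l))).det ^ m) *
          (Algebra.norm K (algebraMap U M (ϑ j Ex)) * ε ^ m)) := by
    intro j P hP y E i0 hl E' hE' C
    rw [← mul_assoc, ← map_mul]
    obtain ⟨z, hz⟩ : ∃ z, z = (Matrix.of fun i l => ∑ j, algebraMap ℂ M (C i j) *
        E' j (algebraMap U M (x l))).det ^ m * algebraMap U M (ϑ j Ex) := ⟨_, rfl⟩
    rw [← hz]
    by_cases hz0 : z = 0
    · left
      rw [hz0, Algebra.norm_zero, zero_mul]
    · right
      refine hε m P z hz0 fun Q e hQ l => ?_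
      refine tens_bound (K := K) (U := U) (M := M) hU hnM (hϑp j)
        (wU := fun v => ∑ i, ((dg K (up U X) i : ℤ) - 1) * pol (X i) v)
        (wM := fun Q => ∑ i, ((dg K (up U X) i : ℤ) - 1) * pol (XM i) Q) (fun Q v e hQ => ?_)
        (hϑpos j) (fun j => f.ne_zero j) (fun j => ⟨⟨_, (hf j).1⟩, rfl⟩) (fun j Q => ?_)
        hx hEx hP hl hE' C hz hz0 Q e hQ l
      · change ∑ i, ((dg K (up U X) i : ℤ) - 1) * (pol (XM i) Q : ℤ) =
          e * ∑ i, ((dg K (up U X) i : ℤ) - 1) * (pol (X i) v : ℤ)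
        rw [Finset.mul_sum]
        refine Finset.sum_congr rfl fun i _ => ?_
        rw [pol_img (hXM i) hQ]
        push_cast
        ring
      · obtain ⟨Q', e, hQ'⟩ := exists_above (k := ℂ) (K := M) (L := L) Q
        have h1 := (hf j).2 Q'
        have h2 : Pool.Agent.U192.NM.wt K (up U X) κ Q' =
            e * ∑ i, ((dg K (up U X) i : ℤ) - 1) * (pol (XM i) Q : ℤ) := by
          unfold Pool.Agent.U192.NM.wt
          rw [Finset.mul_sum]
          refine Finset.sum_congr rfl fun i _ => ?_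
          rw [if_pos i.2, pol_img (hXL' i) hQ']
          push_cast
          ring
        have h3 : ((f j : M) : L) = algebraMap M L (f j) := rfl
        rw [h2, h3, ← mul_neg] at h1
        exact (over_ge hQ').1 h1
  -- the frame
  obtain ⟨y, E, hy, hEy⟩ := exists_crd hn
  choose E' hE' using fun i => exists_lift (L := M) hn (E i)
  have hyM : IsTranscendenceBasis ℂ (fun j => algebraMap K M (y j)) := hy.algebraMap_comp
  have hEM := lift_dual hEy hE'
  have hxM : AlgebraicIndependent ℂ fun l => algebraMap U M (x l) :=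
    hx.1.map' (f := IsScalarTower.toAlgHom ℂ U M) (algebraMap U M).injective
  obtain ⟨C, hC⟩ := exists_comb hxM hyM hEM
  obtain ⟨G, hG⟩ : ∃ G : Fin d → Derivation ℂ K K, ∀ i, G i =
    ∑ j, algebraMap ℂ K (C (i, j)) • E j := ⟨_, fun _ => rfl⟩
  obtain ⟨GM, hGM⟩ : ∃ G : Fin d → Derivation ℂ M M, ∀ i, G i =
    ∑ j, algebraMap ℂ M (C (i, j)) • E' j := ⟨_, fun _ => rfl⟩
  have hGG : ∀ i z, GM i (algebraMap K M z) = algebraMap K M (G i z) := by
    intro i z
    rw [hGM, hG, Pool.Agent.W308.PG.YLOC.der_sum_apply, Pool.Agent.W308.PG.YLOC.der_sum_apply,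
      map_sum]
    refine Finset.sum_congr rfl fun j _ => ?_
    change algebraMap ℂ M (C (i, j)) * E' j (algebraMap K M z) =
      algebraMap K M (algebraMap ℂ K (C (i, j)) * E j z)
    rw [hE', map_mul, ← IsScalarTower.algebraMap_apply ℂ K M]
  obtain ⟨Δ, hΔ⟩ : ∃ Δ : M, Δ = (Matrix.of fun i l => GM i (algebraMap U M (x l))).det := ⟨_, rfl⟩
  have hΔ0 : Δ ≠ 0 := by
    rw [hΔ]
    have h1 : (Matrix.of fun i l => GM i (algebraMap U M (x l))) = Matrix.of fun i l =>
        ∑ j, algebraMap ℂ M (C (i, j)) * E' j (algebraMap U M (x l)) := by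
      ext i l
      rw [Matrix.of_apply, Matrix.of_apply, hGM, Pool.Agent.W308.PG.YLOC.der_sum_apply]
      rfl
    rw [h1]
    exact hC
  have hT10 : T1 ≠ 0 := by
    intro h0
    have h1 := hT1 G GM hGG
    rw [h0, ← hΔ] at h1
    refine (mul_ne_zero ?_ ?_ : (c1 : K) * Algebra.norm K (Δ ^ m) ≠ 0) h1.symm
    · exact_mod_cast hc1.ne'
    · rw [Ne, Algebra.norm_eq_zero_iff]
      exact pow_ne_zero _ hΔ0
  obtain ⟨T, hTdef⟩ : ∃ T : ι → K, ∀ i, T i = Algebra.norm K (algebraMap U M (ϑ i Ex)) :=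
    ⟨_, fun _ => rfl⟩
  have hT0 : ∀ i, T i ≠ 0 := by
    intro i
    rw [hTdef, Ne, Algebra.norm_eq_zero_iff, map_eq_zero]
    exact hϑ0 i
  -- the ratios
  have hθE : θ 0 Ex ≠ 0 := by
    intro h0
    apply hG0
    rw [pluri_coord hx hEx (hθ 0) G0, h0, mul_zero]
  have hr : ∀ j : Fin a, θ j.succ G0 / θ 0 G0 = θ j.succ Ex / θ 0 Ex := by
    intro j
    have h1 := pluri_coord hx hEx (hθ 0) G0
    have h2 := pluri_coord hx hEx (hθ j.succ) G0
    have h3 : (Matrix.of fun i j => G0 i (x j) : Matrix (Fin d) (Fin d) U).det ^ m ≠ 0 := by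
      intro h0
      apply hG0
      rw [h1, h0, zero_mul]
    rw [h1, h2]
    field_simp
  obtain ⟨u, hu⟩ : ∃ u : Fin a → M, ∀ j, u j = algebraMap U M (θ j.succ Ex / θ 0 Ex) :=
    ⟨_, fun _ => rfl⟩
  have hui : AlgebraicIndependent ℂ u := by
    have h1 : AlgebraicIndependent ℂ fun j : Fin a => θ j.succ Ex / θ 0 Ex := by
      have h2 : (fun j : Fin a => θ j.succ Ex / θ 0 Ex) = fun j => θ j.succ G0 / θ 0 G0 :=
        funext fun j => (hr j).symm
      rw [h2]
      exact hind
    have h2 : u = fun j => IsScalarTower.toAlgHom ℂ U M (θ j.succ Ex / θ 0 Ex) :=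
      funext fun j => hu j
    rw [h2]
    exact h1.map' (algebraMap U M).injective
  have h10 : ∑ l, (Pi.single 0 1 : Fin (a + 1) → ℂ) l • θ l Ex = θ 0 Ex := by
    rw [Finset.sum_eq_single 0]
    · rw [Pi.single_eq_same, one_smul]
    · intro b _ hb
      rw [Pi.single_eq_of_ne hb, zero_smul]
    · intro h
      exact absurd (Finset.mem_univ _) h
  let i1 : ι := ⟨Pi.single 0 1, by rw [h10]; exact hθE⟩
  have hi1 : ϑ i1 Ex = θ 0 Ex := by
    rw [hϑ]
    exact h10
  have hxT : ∀ j, ∀ c : ℂ, algebraMap ℂ M c - u j ≠ 0 → ∃ i : ι,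
      algebraMap U M (ϑ i Ex) = (algebraMap ℂ M c - u j) * algebraMap U M (θ 0 Ex) := by
    intro j c hc
    have h1 : ∑ l, (fun l => c * (Pi.single 0 1 : Fin (a + 1) → ℂ) l -
        (Pi.single j.succ 1 : Fin (a + 1) → ℂ) l) l • θ l Ex =
        c • θ 0 Ex - θ j.succ Ex := by
      have h2 : ∑ l, (Pi.single j.succ 1 : Fin (a + 1) → ℂ) l • θ l Ex = θ j.succ Ex := by
        rw [Finset.sum_eq_single j.succ]
        · rw [Pi.single_eq_same, one_smul]
        · intro b _ hb
          rw [Pi.single_eq_of_ne hb, zero_smul]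
        · intro h
          exact absurd (Finset.mem_univ _) h
      have h3 : ∑ l, (c * (Pi.single 0 1 : Fin (a + 1) → ℂ) l -
          (Pi.single j.succ 1 : Fin (a + 1) → ℂ) l) • θ l Ex =
          c • ∑ l, (Pi.single 0 1 : Fin (a + 1) → ℂ) l • θ l Ex -
          ∑ l, (Pi.single j.succ 1 : Fin (a + 1) → ℂ) l • θ l Ex := by
        rw [Finset.smul_sum, ← Finset.sum_sub_distrib]
        refine Finset.sum_congr rfl fun l _ => ?_
        rw [sub_smul, mul_smul]
      rw [h3, h10, h2]
    have h4 : algebraMap U M (c • θ 0 Ex - θ j.succ Ex) =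
        (algebraMap ℂ M c - u j) * algebraMap U M (θ 0 Ex) := by
      rw [hu, map_sub, Algebra.smul_def, map_mul, ← IsScalarTower.algebraMap_apply ℂ U M, sub_mul,
        ← map_mul (algebraMap U M) (θ j.succ Ex / θ 0 Ex), div_mul_cancel₀ _ hθE]
    refine ⟨⟨fun l => c * (Pi.single 0 1 : Fin (a + 1) → ℂ) l -
        (Pi.single j.succ 1 : Fin (a + 1) → ℂ) l, ?_⟩, ?_⟩
    · rw [h1]
      intro h0
      rw [h0, map_zero] at h4
      exact mul_ne_zero hc ((map_ne_zero (algebraMap U M)).2 hθE) h4.symm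
    · rw [hϑ]
      refine Eq.trans ?_ h4
      exact congrArg (algebraMap U M) h1
  obtain ⟨s', hs0, hind2⟩ := Pool.Agent.R882.LT.exists_ratios_d (L := K) (K := M) (d := a) hn
    (trdeg_adj hui) T ⟨i1, hT0 i1⟩ (fun G hG G' hG' j => by
      obtain ⟨G'', hG''⟩ := exists_lift (K := M) (L := Ω) hnM G'
      have h1 : G'' (algebraMap M Ω (u j)) = 0 := by
        refine der_norm (K := K) G'' _ fun c => ?_
        have hGK : ∀ z : K, G'' (algebraMap K Ω z) = algebraMap K Ω (G z) := by
          intro z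
          rw [IsScalarTower.algebraMap_apply K M Ω, hG'', hG',
            ← IsScalarTower.algebraMap_apply K M Ω]
        rw [hGK]
        by_cases h0 : algebraMap ℂ M c - u j = 0
        · have h2 : algebraMap ℂ Ω c - algebraMap M Ω (u j) = 0 := by
            rw [IsScalarTower.algebraMap_apply ℂ M Ω, ← map_sub, h0, map_zero]
          rw [h2, Algebra.norm_zero, map_zero, map_zero]
        · obtain ⟨i, hi⟩ := hxT j c h0
          obtain ⟨w, hw⟩ : ∃ w, w = Algebra.norm K (algebraMap ℂ M c - u j) := ⟨_, rfl⟩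
          have hw0 : w ≠ 0 := by
            rw [hw, Ne, Algebra.norm_eq_zero_iff]
            exact h0
          have h2 : T i = T i1 * w := by
            rw [hTdef, hTdef, hi, hi1, map_mul, ← hw]
            ring
          have h3 := hG i1 i
          rw [h2, G.leibniz] at h3
          simp only [smul_eq_mul] at h3
          have h4 : T i1 ^ 2 * G w = 0 := by linear_combination h3
          have h6 := (mul_eq_zero.1 h4).resolve_left (pow_ne_zero _ (hT0 i1))
          have h7 : Algebra.norm K (algebraMap ℂ Ω c - algebraMap M Ω (u j)) =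
              w ^ Module.finrank M Ω := by
            rw [IsScalarTower.algebraMap_apply ℂ M Ω, ← map_sub,
              ← Algebra.norm_norm (R := K) (S := M) (A := Ω), Algebra.norm_algebraMap, map_pow, hw]
          rw [h7, G.leibniz_pow, h6, smul_zero, smul_zero, map_zero]
      rw [hG''] at h1
      exact (map_eq_zero _).1 h1)
  refine ⟨(T (s' 0) * ε ^ m) • T1, fun j => T (s' j.succ) / T (s' 0), ?_, hind2,
    fun P hP D hD => ?_, fun j P hP D hD => ?_⟩
  · exact smul_ne_zero (mul_ne_zero (hT0 _) (pow_ne_zero _ hε0)) hT10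
  · rw [hTdef]
    exact hT _ (hreg (s' 0)) P hP D hD
  · have h1 : (T (s' j.succ) / T (s' 0)) • (T (s' 0) * ε ^ m) • T1 =
        (T (s' j.succ) * ε ^ m) • T1 := by
      rw [smul_smul]
      congr 1
      have := hT0 (s' 0)
      field_simp
    rw [h1, hTdef]
    exact hT _ (hreg (s' j.succ)) P hP D hD

end

end Pool.Agent.U192.TE
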