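import Pool.Agent.U192.TE.Sym
import Pool.Agent.U192.TD.Main

/-!
Products of determinants of the values of vector fields, as multilinear maps.
-/

set_option autoImplicit false
set_option linter.overlappingInstances false
set_option linter.unusedSectionVars false

open FF Pool.Agent.W602.GT Pool.Agent.W603.LV Pool.Agent.W619.PQ Pool.Agent.Y172

namespace Pool.Agent.U192.TE

section

variable {K Ω : Type} [Field K] [Field Ω] [Algebra ℂ K] [Algebra ℂ Ω] [Algebra K Ω]
  [IsScalarTower ℂ K Ω] [Algebra.IsAlgebraic K Ω]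

/-- the values of the lifts of the vector fields are linear in the vector field -/
theorem exists_lin {n : ℕ} (hn : Algebra.trdeg ℂ K = n) :
    ∃ lam : Ω → (Derivation ℂ K K →ₗ[K] Ω), ∀ (D : Derivation ℂ K K) (D' : Derivation ℂ Ω Ω),
      (∀ z, D' (algebraMap K Ω z) = algebraMap K Ω (D z)) → ∀ w, lam w D = D' w := by
  choose Lf h1 h2 h3 using fun D => Pool.Agent.W357.PG.main.{0, 0} ℂ K Ω n hn D
  have hadd : ∀ D D' : Derivation ℂ K K, Lf (D + D') = Lf D + Lf D' := by
    intro D D'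
    symm
    refine h2 (D + D') _ fun f => ?_
    change Lf D (algebraMap K Ω f) + Lf D' (algebraMap K Ω f) = algebraMap K Ω (D f + D' f)
    rw [h1, h1, map_add]
  have hsmul : ∀ (c : K) (D : Derivation ℂ K K), Lf (c • D) = algebraMap K Ω c • Lf D := by
    intro c D
    symm
    refine h2 (c • D) _ fun f => ?_
    change algebraMap K Ω c * Lf D (algebraMap K Ω f) = algebraMap K Ω (c * D f)
    rw [h1, map_mul]
  refine ⟨fun w => { toFun := fun D => Lf D w, map_add' := ?_, map_smul' := ?_ }, ?_⟩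
  · intro D D'
    rw [hadd]
    rfl
  · intro c D
    rw [hsmul, RingHom.id_apply, Algebra.smul_def]
    rfl
  · intro D D' h w
    change Lf D w = D' w
    rw [h2 D D' h]

end

section

variable {K Ω : Type} [Field K] [Field Ω] [Algebra ℂ K] [Algebra ℂ Ω] [Algebra K Ω]

/-- the matrix of the values -/
def mat {S : Type} {m d : ℕ} (lam : Ω → (Derivation ℂ K K →ₗ[K] Ω)) (ξ : S → Fin d → Ω)
    (v : Fin d × (S × Fin m) → Derivation ℂ K K) (j : S × Fin m) : Matrix (Fin d) (Fin d) Ω :=
  Matrix.of fun i l => lam (ξ j.1 l) (v (i, j))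

theorem mat_ne {S : Type} {m d : ℕ} (lam : Ω → (Derivation ℂ K K →ₗ[K] Ω)) (ξ : S → Fin d → Ω)
    [DecidableEq (Fin d × (S × Fin m))] (v : Fin d × (S × Fin m) → Derivation ℂ K K)
    {i0 : Fin d} {j0 j : S × Fin m} (hj : j ≠ j0) (u : Derivation ℂ K K) :
    mat lam ξ (Function.update v (i0, j0) u) j = mat lam ξ v j := by
  ext i l
  unfold mat
  rw [Matrix.of_apply, Matrix.of_apply, Function.update_of_ne]
  intro h
  exact hj (Prod.mk.inj h).2

theorem mat_eq {S : Type} {m d : ℕ} (lam : Ω → (Derivation ℂ K K →ₗ[K] Ω)) (ξ : S → Fin d → Ω)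
    [DecidableEq (Fin d × (S × Fin m))] (v : Fin d × (S × Fin m) → Derivation ℂ K K)
    (i0 : Fin d) (j0 : S × Fin m) (u : Derivation ℂ K K) :
    mat lam ξ (Function.update v (i0, j0) u) j0 =
      (mat lam ξ v j0).updateRow i0 (fun l => lam (ξ j0.1 l) u) := by
  ext i l
  by_cases hi : i = i0
  · subst hi
    rw [Matrix.updateRow_self]
    unfold mat
    rw [Matrix.of_apply, Function.update_self]
  · rw [Matrix.updateRow_ne hi]
    unfold mat
    rw [Matrix.of_apply, Matrix.of_apply, Function.update_of_ne]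
    intro h
    exact hi (Prod.mk.inj h).1

/-- the product of the determinants -/
noncomputable def Psi {S : Type} [Fintype S] {m d : ℕ} (lam : Ω → (Derivation ℂ K K →ₗ[K] Ω))
    (ξ : S → Fin d → Ω) :
    MultilinearMap K (fun _ : Fin d × (S × Fin m) => Derivation ℂ K K) Ω where
  toFun v := ∏ j : S × Fin m, (mat lam ξ v j).det
  map_update_add' := by
    classical
    rintro inst v ⟨i0, j0⟩ u w
    have h1 : ∀ u : Derivation ℂ K K, ∏ j : S × Fin m,
        (mat lam ξ (Function.update v (i0, j0) u) j).det =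
        ((mat lam ξ v j0).updateRow i0 (fun l => lam (ξ j0.1 l) u)).det *
          ∏ j ∈ Finset.univ.erase j0, (mat lam ξ v j).det := by
      intro u
      rw [← Finset.mul_prod_erase Finset.univ _ (Finset.mem_univ j0), mat_eq]
      congr 1
      refine Finset.prod_congr rfl fun j hj => ?_
      rw [mat_ne lam ξ v (Finset.ne_of_mem_erase hj)]
    rw [h1, h1, h1, ← add_mul, ← Matrix.det_updateRow_add]
    congr 3
    funext l
    rw [map_add]
    rfl
  map_update_smul' := by
    classical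
    rintro inst v ⟨i0, j0⟩ c u
    have h1 : ∀ u : Derivation ℂ K K, ∏ j : S × Fin m,
        (mat lam ξ (Function.update v (i0, j0) u) j).det =
        ((mat lam ξ v j0).updateRow i0 (fun l => lam (ξ j0.1 l) u)).det *
          ∏ j ∈ Finset.univ.erase j0, (mat lam ξ v j).det := by
      intro u
      rw [← Finset.mul_prod_erase Finset.univ _ (Finset.mem_univ j0), mat_eq]
      congr 1
      refine Finset.prod_congr rfl fun j hj => ?_
      rw [mat_ne lam ξ v (Finset.ne_of_mem_erase hj)]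
    rw [h1, h1, Algebra.smul_def, ← mul_assoc, ← Matrix.det_updateRow_smul]
    congr 3
    funext l
    rw [map_smul, Algebra.smul_def]
    rfl

theorem Psi_apply {S : Type} [Fintype S] {m d : ℕ} (lam : Ω → (Derivation ℂ K K →ₗ[K] Ω))
    (ξ : S → Fin d → Ω) (v : Fin d × (S × Fin m) → Derivation ℂ K K) :
    Psi lam ξ v = ∏ j : S × Fin m, (mat lam ξ v j).det := rfl

/-- the value on a diagonal -/
theorem Psi_diag {S : Type} [Fintype S] {m d : ℕ} (lam : Ω → (Derivation ℂ K K →ₗ[K] Ω))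
    (ξ : S → Fin d → Ω) (G : Fin d → Derivation ℂ K K) :
    Psi (m := m) lam ξ (fun x => G x.1) =
      ∏ σ : S, (Matrix.of fun i l => lam (ξ σ l) (G i)).det ^ m := by
  rw [Psi_apply, Fintype.prod_prod_type]
  refine Finset.prod_congr rfl fun σ _ => ?_
  have h1 : ∀ c : Fin m, (mat lam ξ (fun x : Fin d × (S × Fin m) => G x.1) (σ, c)).det =
      (Matrix.of fun i l => lam (ξ σ l) (G i)).det := fun c => rfl
  rw [Finset.prod_congr rfl fun c _ => h1 c, Finset.prod_const, Finset.card_univ,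
    Fintype.card_fin]

end

section

variable {K M Ω : Type} [Field K] [Field M] [Field Ω] [Algebra ℂ K] [Algebra ℂ M] [Algebra ℂ Ω]
  [Algebra K M] [Algebra K Ω] [IsScalarTower ℂ K M] [IsScalarTower ℂ K Ω]
  [FiniteDimensional K M] [Algebra.IsAlgebraic K Ω]

/-- the lifts of vector fields commute with the embeddings -/
theorem lift_emb {n : ℕ} (hn : Algebra.trdeg ℂ K = n) (σ : M →ₐ[K] Ω) {D : Derivation ℂ K K}
    {DM : Derivation ℂ M M} {DΩ : Derivation ℂ Ω Ω}
    (hM : ∀ z, DM (algebraMap K M z) = algebraMap K M (D z))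
    (hΩ : ∀ z, DΩ (algebraMap K Ω z) = algebraMap K Ω (D z)) (w : M) :
    DΩ (σ w) = σ (DM w) := by
  let iA : Algebra M Ω := σ.toRingHom.toAlgebra
  have t1 : IsScalarTower K M Ω := IsScalarTower.of_algebraMap_eq fun c => (σ.commutes c).symm
  have t2 : IsScalarTower ℂ M Ω := IsScalarTower.of_algebraMap_eq fun c => by
    change _ = σ (algebraMap ℂ M c)
    rw [IsScalarTower.algebraMap_apply ℂ K M, σ.commutes, ← IsScalarTower.algebraMap_apply ℂ K Ω]
  have hal : Algebra.IsAlgebraic M Ω := Algebra.IsAlgebraic.tower_top (K := K) M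
  have hnM : Algebra.trdeg ℂ M = n := Pool.Agent.Y172.trdeg_up (K := K) hn
  obtain ⟨D'', h1, -⟩ := Pool.Agent.W357.PG.main.{0, 0} ℂ M Ω n hnM DM
  obtain ⟨D0, h2, h3, -⟩ := Pool.Agent.W357.PG.main.{0, 0} ℂ K Ω n hn D
  have h4 : DΩ = D'' := by
    rw [h3 DΩ hΩ, h3 D'' fun z => ?_]
    rw [IsScalarTower.algebraMap_apply K M Ω, h1, hM, ← IsScalarTower.algebraMap_apply K M Ω]
  rw [h4]
  exact h1 w

/-- **The value on a diagonal** is a norm. -/
theorem Psi_norm [IsAlgClosed Ω] [Fintype (M →ₐ[K] Ω)] {n d m : ℕ} (hn : Algebra.trdeg ℂ K = n)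
    {lam : Ω → (Derivation ℂ K K →ₗ[K] Ω)}
    (hlam : ∀ (D : Derivation ℂ K K) (D' : Derivation ℂ Ω Ω),
      (∀ z, D' (algebraMap K Ω z) = algebraMap K Ω (D z)) → ∀ w, lam w D = D' w)
    (x : Fin d → M) (a : M) {G : Fin d → Derivation ℂ K K} {GM : Fin d → Derivation ℂ M M}
    (hM : ∀ i z, GM i (algebraMap K M z) = algebraMap K M (G i z)) :
    Psi (m := m) lam (fun (σ : M →ₐ[K] Ω) l => σ (x l)) (fun y => G y.1) *
      ∏ σ : M →ₐ[K] Ω, σ a =
      algebraMap K Ω (Algebra.norm K ((Matrix.of fun i l => GM i (x l)).det ^ m * a)) := by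
  classical
  have hcK : CharZero K := charZero_of_injective_algebraMap (algebraMap ℂ K).injective
  rw [Psi_diag, ← Finset.prod_mul_distrib, Algebra.norm_eq_prod_embeddings K Ω]
  refine Finset.prod_congr (by ext; simp) fun σ _ => ?_
  rw [map_mul, map_pow]
  congr 2
  have h1 := AlgHom.map_det σ (Matrix.of fun i l => GM i (x l))
  rw [h1]
  congr 1
  ext i l
  obtain ⟨DΩ, h2, -⟩ := Pool.Agent.W357.PG.main.{0, 0} ℂ K Ω n hn (G i)
  change lam (σ (x l)) (G i) = σ (GM i (x l))
  rw [hlam (G i) DΩ h2, lift_emb hn σ (hM i) h2]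

end

end Pool.Agent.U192.TE
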