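import Mathlib

/-!
Symmetrisations of multilinear maps in terms of their values on the diagonals.
-/

set_option autoImplicit false
set_option linter.unusedSectionVars false

namespace Pool.Agent.U192.TE

section

variable {R V W ι I : Type} [CommRing R] [AddCommGroup V] [Module R V] [AddCommGroup W]
  [Module R W] [Fintype ι] [DecidableEq ι] [DecidableEq I]

/-- **Polarisation.** The sum over all permutations which preserve the types of the variables. -/
theorem sym_diag (τ : ι → I) (Ψ : MultilinearMap R (fun _ : ι => V) W) (v : ι → V) :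
    ∑ A : Finset ι, (-1 : ℤ) ^ A.card •
      Ψ (fun x => ∑ y ∈ Finset.univ.filter (fun y => y ∉ A ∧ τ y = τ x), v y) =
    ∑ π ∈ (Finset.univ : Finset (Equiv.Perm ι)).filter (fun π => ∀ x, τ (π x) = τ x),
      Ψ (fun x => v (π x)) := by
  classical
  have h1 : ∀ A : Finset ι,
      Ψ (fun x => ∑ y ∈ Finset.univ.filter (fun y => y ∉ A ∧ τ y = τ x), v y) =
      ∑ r : ι → ι, if (∀ x, τ (r x) = τ x) ∧ A ⊆ (Finset.univ.image r)ᶜ then
        Ψ (fun x => v (r x)) else 0 := by
    intro A
    have h2 := Ψ.map_sum_finset (fun _ y => v y)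
      (fun x => Finset.univ.filter (fun y => y ∉ A ∧ τ y = τ x))
    rw [h2, ← Finset.sum_filter]
    refine Finset.sum_congr ?_ fun _ _ => rfl
    ext r
    simp only [Fintype.mem_piFinset, Finset.mem_filter, Finset.mem_univ, true_and]
    constructor
    · intro h
      refine ⟨fun x => (h x).2, fun y hy => ?_⟩
      rw [Finset.mem_compl, Finset.mem_image]
      rintro ⟨x, -, rfl⟩
      exact (h x).1 hy
    · rintro ⟨h, h'⟩ x
      refine ⟨fun hy => ?_, h x⟩
      have h3 := h' hy
      rw [Finset.mem_compl, Finset.mem_image] at h3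
      exact h3 ⟨x, Finset.mem_univ _, rfl⟩
  have h2 : ∑ A : Finset ι, (-1 : ℤ) ^ A.card •
      Ψ (fun x => ∑ y ∈ Finset.univ.filter (fun y => y ∉ A ∧ τ y = τ x), v y) =
      ∑ r : ι → ι, if (∀ x, τ (r x) = τ x) ∧ Function.Surjective r then
        Ψ (fun x => v (r x)) else 0 := by
    rw [Finset.sum_congr rfl fun A _ => by rw [h1 A, Finset.smul_sum], Finset.sum_comm]
    refine Finset.sum_congr rfl fun r _ => ?_
    by_cases hr : ∀ x, τ (r x) = τ x
    · have h3 : ∀ A : Finset ι, (-1 : ℤ) ^ A.card •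
          (if (∀ x, τ (r x) = τ x) ∧ A ⊆ (Finset.univ.image r)ᶜ then
            Ψ (fun x => v (r x)) else 0) =
          (if A ⊆ (Finset.univ.image r)ᶜ then (-1 : ℤ) ^ A.card else 0) •
            Ψ (fun x => v (r x)) := by
        intro A
        by_cases hA : A ⊆ (Finset.univ.image r)ᶜ
        · rw [if_pos ⟨hr, hA⟩, if_pos hA]
        · rw [if_neg (fun h => hA h.2), if_neg hA, smul_zero, zero_smul]
      rw [Finset.sum_congr rfl fun A _ => h3 A, ← Finset.sum_smul, ← Finset.sum_filter]
      have h4 : (Finset.univ : Finset (Finset ι)).filter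
          (fun A => A ⊆ (Finset.univ.image r)ᶜ) = ((Finset.univ.image r)ᶜ).powerset := by
        ext A
        simp
      rw [h4, Finset.sum_powerset_neg_one_pow_card]
      by_cases hs : Function.Surjective r
      · have h5 : (Finset.univ.image r)ᶜ = (∅ : Finset ι) := by
          rw [Finset.compl_eq_empty_iff, Finset.image_univ_of_surjective hs]
        rw [if_pos h5, one_smul, if_pos (And.intro hr hs)]
      · have h5 : (Finset.univ.image r)ᶜ ≠ (∅ : Finset ι) := by
          intro h5
          rw [Finset.compl_eq_empty_iff] at h5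
          apply hs
          intro y
          have h6 : y ∈ Finset.univ.image r := by
            rw [h5]
            exact Finset.mem_univ _
          obtain ⟨x, -, hx⟩ := Finset.mem_image.1 h6
          exact ⟨x, hx⟩
        rw [if_neg h5, zero_smul, if_neg (fun h => hs h.2)]
    · rw [if_neg (fun h => hr h.1)]
      refine Finset.sum_eq_zero fun A _ => ?_
      rw [if_neg (fun h => hr h.1), smul_zero]
  rw [h2, ← Finset.sum_filter]
  symm
  refine Finset.sum_bij (fun π _ => ⇑π) ?_ ?_ ?_ ?_
  · intro π hπ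
    rw [Finset.mem_filter] at hπ ⊢
    exact ⟨Finset.mem_univ _, hπ.2, π.surjective⟩
  · intro π _ π' _ h
    exact DFunLike.coe_injective h
  · intro r hr
    rw [Finset.mem_filter] at hr
    refine ⟨Equiv.ofBijective r ((Finite.surjective_iff_bijective).1 hr.2.2), ?_, rfl⟩
    rw [Finset.mem_filter]
    exact ⟨Finset.mem_univ _, hr.2.1⟩
  · intro π _
    rfl

/-- the symmetrisation -/
noncomputable def sym (τ : ι → I) (Ψ : MultilinearMap R (fun _ : ι => V) W) :
    MultilinearMap R (fun _ : ι => V) W :=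
  ∑ π ∈ (Finset.univ : Finset (Equiv.Perm ι)).filter (fun π => ∀ x, τ (π x) = τ x),
    Ψ.domDomCongr π

theorem sym_apply (τ : ι → I) (Ψ : MultilinearMap R (fun _ : ι => V) W) (v : ι → V) :
    sym τ Ψ v = ∑ A : Finset ι, (-1 : ℤ) ^ A.card •
      Ψ (fun x => ∑ y ∈ Finset.univ.filter (fun y => y ∉ A ∧ τ y = τ x), v y) := by
  rw [sym_diag]
  unfold sym
  rw [MultilinearMap.sum_apply]
  rfl

/-- the value on a diagonal -/
theorem sym_const (τ : ι → I) (Ψ : MultilinearMap R (fun _ : ι => V) W) :
    ∃ q : ℕ, 0 < q ∧ ∀ G : I → V, sym τ Ψ (fun x => G (τ x)) = q • Ψ (fun x => G (τ x)) := by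
  refine ⟨((Finset.univ : Finset (Equiv.Perm ι)).filter (fun π => ∀ x, τ (π x) = τ x)).card, ?_,
    fun G => ?_⟩
  · refine Finset.card_pos.2 ⟨1, ?_⟩
    rw [Finset.mem_filter]
    exact ⟨Finset.mem_univ _, fun _ => rfl⟩
  · unfold sym
    rw [MultilinearMap.sum_apply, ← Finset.sum_const]
    refine Finset.sum_congr rfl fun π hπ => ?_
    rw [Finset.mem_filter] at hπ
    rw [MultilinearMap.domDomCongr_apply]
    congr 1
    funext x
    rw [hπ.2 x]

end

end Pool.Agent.U192.TE
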