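import Pool.Agent.U192.TE.Psi

/-!
The norms of the pull-backs of pluricanonical forms as tensor differentials.
-/

set_option autoImplicit false
set_option linter.overlappingInstances false
set_option linter.unusedSectionVars false

open FF Pool.Agent.W602.GT Pool.Agent.W603.LV Pool.Agent.W619.PQ Pool.Agent.Y172

namespace Pool.Agent.U192.TE

section

variable {K : Type} [Field K] [Algebra ℂ K]

/-- a multilinear form is regular if its values on a regular frame are regular -/
theorem reg_of_frame {ι : Type} [Fintype ι] {n : ℕ} {P : Place ℂ K} {y : Fin n → K}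
    {E : Fin n → Derivation ℂ K K} {i0 : Fin n} (hl : Loc P y E i0)
    (T : MultilinearMap K (fun _ : ι => Derivation ℂ K K) K)
    (h : ∀ f : ι → Fin n, Ge P 0 (T fun x => E (f x))) {D : ι → Derivation ℂ K K}
    (hD : ∀ x, DerReg P (D x)) : P.Reg (T D) := by
  classical
  have h1 : D = fun x => ∑ j, D x (y j) • E j := by
    funext x
    exact Pool.Agent.W308.PG.YLOC.expandK (k := ℂ) (K := K) _ E hl.bas hl.dual (D x)
  change Ge P 0 (T D)
  rw [h1, MultilinearMap.map_sum]
  refine Ge.sum _ _ fun r _ => ?_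
  rw [T.map_smul_univ (fun x => D x (y (r x))) (fun x => E (r x)), smul_eq_mul]
  have h2 : Ge P 0 (∏ x, D x (y (r x))) := by
    have h3 : ∀ s : Finset ι, Ge P 0 (∏ x ∈ s, D x (y (r x))) := by
      intro s
      induction s using Finset.induction_on with
      | empty => exact Or.inr (by rw [Finset.prod_empty, P.ord_one])
      | insert a s ha ih =>
        rw [Finset.prod_insert ha]
        have h4 : Ge P 0 (D a (y (r a))) := hD a _ (hl.reg _)
        have h5 := h4.mul ih
        rwa [zero_add] at h5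
    exact h3 _
  have h6 := h2.mul (h r)
  rwa [zero_add] at h6

end

section

variable {K M : Type} [Field K] [Field M] [Algebra ℂ K] [Algebra ℂ M] [Algebra K M]
  [IsScalarTower ℂ K M] [FiniteDimensional K M]

/-- **The tensor.** -/
theorem exists_tensor [Algebra.EssFiniteType ℂ K] {n d m : ℕ} (hn : Algebra.trdeg ℂ K = n)
    (x : Fin d → M) :
    ∃ (T : MultilinearMap K (fun _ : Fin (d * m * Module.finrank K M) => Derivation ℂ K K) K)
      (τ : Fin (d * m * Module.finrank K M) → Fin d) (q : ℕ), 0 < q ∧ (∀ c : K,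
      (∀ P : Place ℂ K, Divisorial n P → ∀ (y : Fin n → K) (E : Fin n → Derivation ℂ K K)
        (i0 : Fin n), Loc P y E i0 → ∀ E' : Fin n → Derivation ℂ M M,
        (∀ i z, E' i (algebraMap K M z) = algebraMap K M (E i z)) → ∀ C : Fin d → Fin n → ℂ,
        Ge P 0 (Algebra.norm K ((Matrix.of fun i l => ∑ j, algebraMap ℂ M (C i j) *
          E' j (x l)).det ^ m) * c)) →
      ∀ P : Place ℂ K, Divisorial n P → ∀ D : Fin (d * m * Module.finrank K M) →
        Derivation ℂ K K, (∀ i, DerReg P (D i)) → P.Reg ((c • T) D)) ∧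
      ∀ (G : Fin d → Derivation ℂ K K) (GM : Fin d → Derivation ℂ M M),
        (∀ i z, GM i (algebraMap K M z) = algebraMap K M (G i z)) →
        T (fun j => G (τ j)) = q * Algebra.norm K ((Matrix.of fun i l => GM i (x l)).det ^ m) := by
  classical
  have hcK : CharZero K := charZero_of_injective_algebraMap (algebraMap ℂ K).injective
  let Ω := AlgebraicClosure K
  obtain ⟨lam, hlam⟩ := exists_lin (K := K) (Ω := Ω) hn
  have hcard : Fintype.card (Fin d × ((M →ₐ[K] Ω) × Fin m)) = d * m * Module.finrank K M := by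
    rw [Fintype.card_prod, Fintype.card_prod, Fintype.card_fin, Fintype.card_fin,
      AlgHom.card K M Ω]
    ring
  let e : Fin d × ((M →ₐ[K] Ω) × Fin m) ≃ Fin (d * m * Module.finrank K M) :=
    Fintype.equivFinOfCardEq hcard
  obtain ⟨Φ, hΦ⟩ : ∃ Φ, Φ = Psi (m := m) lam (fun (σ : M →ₐ[K] Ω) l => σ (x l)) := ⟨_, rfl⟩
  obtain ⟨q, hq0, hq⟩ := sym_const (Prod.fst : Fin d × ((M →ₐ[K] Ω) × Fin m) → Fin d) Φ
  have hinj : Function.Injective (Algebra.linearMap K Ω) := (algebraMap K Ω).injective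
  obtain ⟨ρ, hρ⟩ := (Algebra.linearMap K Ω).exists_leftInverse_of_injective
    (LinearMap.ker_eq_bot.2 hinj)
  have hρ' : ∀ z : K, ρ (algebraMap K Ω z) = z := fun z => LinearMap.congr_fun hρ z
  let T0 : MultilinearMap K (fun _ : Fin d × ((M →ₐ[K] Ω) × Fin m) => Derivation ℂ K K) K :=
    ρ.compMultilinearMap (sym Prod.fst Φ)
  have hT0 : ∀ v, T0 v = ρ (sym Prod.fst Φ v) := fun v => rfl
  have hdiag : ∀ (G : Fin d → Derivation ℂ K K) (GM : Fin d → Derivation ℂ M M),
      (∀ i z, GM i (algebraMap K M z) = algebraMap K M (G i z)) →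
      Φ (fun y => G y.1) = algebraMap K Ω (Algebra.norm K
        ((Matrix.of fun i l => GM i (x l)).det ^ m)) := by
    intro G GM hGM
    have h1 := Psi_norm (m := m) hn hlam x 1 hGM
    rw [mul_one] at h1
    rw [hΦ, ← h1]
    simp
  refine ⟨T0.domDomCongr e, fun j => (e.symm j).1, q, hq0, fun c hreg P hP D hD => ?_,
    fun G GM hGM => ?_⟩
  · obtain ⟨y, E, i0, hl⟩ := exists_loc hn hP
    refine reg_of_frame hl _ (fun f => ?_) hD
    choose E' hE' using fun i => exists_lift (L := M) hn (E i)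
    have h1 : (c • T0.domDomCongr e) (fun x => E (f x)) = T0 (fun y => E (f (e y))) * c := by
      rw [MultilinearMap.smul_apply, smul_eq_mul, mul_comm]
      rfl
    rw [h1, hT0, sym_apply, map_sum, Finset.sum_mul]
    refine Ge.sum _ _ fun A _ => ?_
    obtain ⟨G, hG⟩ : ∃ G : Fin d → Derivation ℂ K K, G = fun i =>
      ∑ z ∈ Finset.univ.filter (fun z => z ∉ A ∧ z.1 = i), E (f (e z)) := ⟨_, rfl⟩
    obtain ⟨GM, hGM⟩ : ∃ G : Fin d → Derivation ℂ M M, G = fun i =>
      ∑ z ∈ Finset.univ.filter (fun z => z ∉ A ∧ z.1 = i), E' (f (e z)) := ⟨_, rfl⟩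
    have h2 : ∀ i z, GM i (algebraMap K M z) = algebraMap K M (G i z) := by
      intro i z
      rw [hG, hGM]
      change (∑ w ∈ _, E' (f (e w))) (algebraMap K M z) = algebraMap K M ((∑ w ∈ _, E (f (e w))) z)
      rw [Pool.Agent.W308.PG.YLOC.der_sum_apply, Pool.Agent.W308.PG.YLOC.der_sum_apply, map_sum]
      exact Finset.sum_congr rfl fun w _ => hE' _ _
    have h3 := hdiag G GM h2
    have h4 : Φ (fun x => ∑ z ∈ Finset.univ.filter (fun z => z ∉ A ∧ z.1 = x.1),
        E (f (e z))) = Φ (fun y => G y.1) := by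
      rw [hG]
    rw [map_zsmul, h4, h3, hρ']
    have h5 : (Matrix.of fun i l => GM i (x l)) = Matrix.of fun i l => ∑ j,
        algebraMap ℂ M ((Finset.univ.filter (fun z : Fin d × ((M →ₐ[K] Ω) × Fin m) =>
          (z ∉ A ∧ z.1 = i) ∧ f (e z) = j)).card : ℂ) * E' j (x l) := by
      ext i l
      rw [Matrix.of_apply, Matrix.of_apply, hGM]
      change (∑ w ∈ _, E' (f (e w))) (x l) = _
      rw [Pool.Agent.W308.PG.YLOC.der_sum_apply, ← Finset.sum_fiberwise _ (fun w => f (e w))]
      refine Finset.sum_congr rfl fun j _ => ?_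
      rw [Finset.filter_filter]
      have h6 : ∀ w ∈ Finset.univ.filter (fun z : Fin d × ((M →ₐ[K] Ω) × Fin m) =>
          (z ∉ A ∧ z.1 = i) ∧ f (e z) = j), E' (f (e w)) (x l) = E' j (x l) := by
        intro w hw
        rw [(Finset.mem_filter.1 hw).2.2]
      rw [Finset.sum_congr rfl h6, Finset.sum_const, nsmul_eq_mul, map_natCast]
    rw [h5]
    have h6 := hreg P hP y E i0 hl E' hE' fun i j =>
      ((Finset.univ.filter (fun z : Fin d × ((M →ₐ[K] Ω) × Fin m) =>
          (z ∉ A ∧ z.1 = i) ∧ f (e z) = j)).card : ℂ)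
    rcases neg_one_pow_eq_or ℤ A.card with h7 | h7
    · rw [h7, one_smul]
      exact h6
    · rw [h7, neg_smul, one_smul, neg_mul]
      exact h6.neg
  · have h1 : (T0.domDomCongr e) (fun j => G ((e.symm j).1)) = T0 (fun y => G y.1) := by
      rw [MultilinearMap.domDomCongr_apply]
      congr 1
      funext y
      rw [Equiv.symm_apply_apply]
    rw [h1, hT0, hq G, map_nsmul, hdiag G GM hGM, hρ', nsmul_eq_mul]

end

end Pool.Agent.U192.TE
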